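import Pool.Agent.W642.RV.Stms

set_option autoImplicit false

/-! # The diagram of a Gauss word is closed -/

namespace Pool.Agent.W320.RV

open Pool.Agent.H832R2.JR Pool.Agent.H891R2.Jones Pool.Agent.H832R3.VJ Pool.Agent.W642.RV

theorem cnt {P : Type} [DecidableEq P] {n : ℕ} {f : Fin n → P} (hf : Function.Injective f)
    (c : Fin n) : ((List.finRange n).map f).count (f c) = 1 := by
  rw [List.count_map_of_injective _ _ hf]
  exact List.count_eq_one_of_mem (List.nodup_finRange n) (List.mem_finRange c)

theorem cnt0 {P : Type} [DecidableEq P] {n : ℕ} {f : Fin n → P} {p : P} (h : ∀ c, f c ≠ p) :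
    ((List.finRange n).map f).count p = 0 := by
  rw [List.count_eq_zero]
  intro hp
  obtain ⟨c, _, hc⟩ := List.mem_map.1 hp
  exact h c hc

theorem capp {P : Type} [DecidableEq P] (l l' : List P) (p : P) :
    (l ++ l').count p = l.count p + l'.count p := List.count_append

/-- the two passages of the crossings -/
theorem cnt2 {N : ℕ} {P : Type} [DecidableEq P] (g : Half N → P) (hg : Function.Injective g)
    (s : Fin N → Bool) (b : Bool) (q : Fin N × Bool) :
    ((List.finRange N).map (fun c => g ((c, s c), b))).count (g (q, b)) +
      ((List.finRange N).map (fun c => g ((c, !s c), b))).count (g (q, b)) = 1 := by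
  obtain ⟨c, x⟩ := q
  have i1 : Function.Injective (fun c => g ((c, s c), b)) := by
    intro c c' h
    have h := hg h
    simp only [Prod.mk.injEq] at h
    exact h.1.1
  have i2 : Function.Injective (fun c => g ((c, !s c), b)) := by
    intro c c' h
    have h := hg h
    simp only [Prod.mk.injEq] at h
    exact h.1.1
  by_cases hx : x = s c
  · have h1 := cnt i1 c
    have h2 : ((List.finRange N).map (fun c => g ((c, !s c), b))).count (g ((c, x), b)) = 0 := by
      apply cnt0
      intro c' h
      have h := hg h
      simp only [Prod.mk.injEq] at h
      obtain ⟨⟨h3, h4⟩, -⟩ := h
      subst h3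
      rw [hx] at h4
      cases hs : s c' <;> simp [hs] at h4
    rw [h2, hx, add_zero]
    exact h1
  · have hx' : x = !s c := by
      cases hs : s c <;> cases x <;> simp_all
    have h1 := cnt i2 c
    have h2 : ((List.finRange N).map (fun c => g ((c, s c), b))).count (g ((c, x), b)) = 0 := by
      apply cnt0
      intro c' h
      have h := hg h
      simp only [Prod.mk.injEq] at h
      obtain ⟨⟨h3, h4⟩, -⟩ := h
      subst h3
      exact hx h4.symm
    rw [h2, hx', zero_add]
    exact h1

theorem starts_eq {N : ℕ} (G : GaussWord N) (e w : Fin N → Bool) :
    (diagram G e w).starts = (List.finRange (2 * N)).map (fun k => ((G.symm k, true) : Half N)) ++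
      (List.finRange N).map (fun c => (((c, if w c then !e c else e c), false) : Half N)) ++
      (List.finRange N).map (fun c => (((c, !(if w c then !e c else e c)), false) : Half N)) := by
  unfold Diagram.starts diagram
  simp only [List.map_map]
  congr 1
  · congr 1
    apply List.map_congr_left
    intro c _
    simp only [Function.comp, crossing]
    cases w c <;> simp
  · apply List.map_congr_left
    intro c _
    simp only [Function.comp, crossing]
    cases w c <;> simp

theorem ends_eq {N : ℕ} (G : GaussWord N) (e w : Fin N → Bool) :
    (diagram G e w).ends =
      (List.finRange (2 * N)).map (fun k => ((next G (G.symm k), false) : Half N)) ++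
      (List.finRange N).map (fun c => (((c, if w c then !e c else e c), true) : Half N)) ++
      (List.finRange N).map (fun c => (((c, !(if w c then !e c else e c)), true) : Half N)) := by
  unfold Diagram.ends diagram
  simp only [List.map_map]
  congr 1
  · congr 1
    apply List.map_congr_left
    intro c _
    simp only [Function.comp, crossing]
    cases w c <;> simp
  · apply List.map_congr_left
    intro c _
    simp only [Function.comp, crossing]
    cases w c <;> simp

theorem closed : S_closed := by
  intro N G e w p
  obtain ⟨q, b⟩ := p
  constructor
  · rw [starts_eq, capp, capp]
    cases b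
    · rw [cnt0 (p := (q, false)), zero_add]
      · exact cnt2 id Function.injective_id (fun c => if w c then !e c else e c) false q
      · intro k h
        simp at h
    · rw [cnt0 (p := (q, true)) (n := N), cnt0 (p := (q, true)) (n := N), add_zero, add_zero]
      · have i1 : Function.Injective (fun k => ((G.symm k, true) : Half N)) := by
          intro k k' h
          simp only [Prod.mk.injEq, and_true] at h
          exact G.symm.injective h
        have := cnt i1 (G q)
        simpa using this
      · intro c h
        simp at h
      · intro c h
        simp at h
  · rw [ends_eq, capp, capp]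
    cases b
    · rw [cnt0 (p := (q, false)) (n := N), cnt0 (p := (q, false)) (n := N), add_zero, add_zero]
      · have i1 : Function.Injective (fun k => ((next G (G.symm k), false) : Half N)) := by
          intro k k' h
          simp only [Prod.mk.injEq, and_true] at h
          exact G.symm.injective ((next G).injective h)
        have := cnt i1 (G ((next G).symm q))
        simpa using this
      · intro c h
        simp at h
      · intro c h
        simp at h
    · rw [cnt0 (p := (q, true)), zero_add]
      · exact cnt2 id Function.injective_id (fun c => if w c then !e c else e c) true q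
      · intro k h
        simp at h

end Pool.Agent.W320.RV
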